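import Pool.Agent.Lib_MP_debdb1_cx.Base

/-!
# MP_debdb1_mp, connected counterexample: definitions
-/

set_option autoImplicit false

namespace Pool.Agent.QAOA.CY

open Matrix Pool.Agent.QAOA Pool.Agent.QAOA.CX

/-- core graph `Cg` on `ZMod m`, and at each position `p ∈ A` a gadget all of whose vertices are joined to the core vertex `p` -/
def compQ {m : ℕ} (Cg : SimpleGraph (ZMod m)) (A : Finset (ZMod m)) : SimpleGraph (VA m A) where
  Adj x y := match x, y with
    | Sum.inl u, Sum.inl w => Cg.Adj u w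
    | Sum.inl u, Sum.inr p => u = p.1.1
    | Sum.inr p, Sum.inl u => u = p.1.1
    | Sum.inr p, Sum.inr q => p.1 = q.1 ∧ GS.Adj p.2 q.2
  symm := ⟨by
    rintro (u | p) (w | q) h
    · exact SimpleGraph.Adj.symm h
    · exact h
    · exact h
    · exact ⟨h.1.symm, SimpleGraph.Adj.symm h.2⟩⟩
  loopless := ⟨by
    rintro (u | p) h
    · exact Cg.loopless.1 u h
    · exact GS.loopless.1 _ h.2⟩

/-- the residue modulo 24 -/
def prj (N : ℕ) : ZMod (24 * N) →+* ZMod 24 := ZMod.castHom (Dvd.intro N rfl) (ZMod 24)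

/-- the core: the square of the cycle with `24 N` vertices, and in each block of 24 vertices the chords `{0, 3}`, `{1, 5}` -/
def coreP (N : ℕ) : SimpleGraph (ZMod (24 * N)) where
  Adj u w := u ≠ w ∧ (w = u + 1 ∨ u = w + 1 ∨ w = u + 2 ∨ u = w + 2 ∨ (w = u + 3 ∧ prj N u = 0) ∨ (u = w + 3 ∧ prj N w = 0) ∨
    (w = u + 4 ∧ prj N u = 1) ∨ (u = w + 4 ∧ prj N w = 1))
  symm := ⟨by
    intro u w h
    refine ⟨h.1.symm, ?_⟩
    tauto⟩
  loopless := ⟨fun u h => h.1 rfl⟩

/-- all gadget positions: one in each block -/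
def Aall (N : ℕ) [NeZero (24 * N)] : Finset (ZMod (24 * N)) := Finset.univ.filter fun u => prj N u = 12

/-- the gadget positions of the counterexample: all except the one in the block number 0 -/
def Amin (N : ℕ) [NeZero (24 * N)] : Finset (ZMod (24 * N)) := (Aall N).erase 12

/-- the counterexample -/
def cex (N : ℕ) [NeZero (24 * N)] : SimpleGraph (VA (24 * N) (Amin N)) := compQ (coreP N) (Amin N)

/-- closed under the operations of the parity refinement -/
structure Clo {V : Type*} [Fintype V] (G : SimpleGraph V) (D : Set (V → ZMod 2)) : Prop where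
  one : (fun _ => 1) ∈ D
  add : ∀ f ∈ D, ∀ g ∈ D, f + g ∈ D
  mul : ∀ f ∈ D, ∀ g ∈ D, f * g ∈ D
  adj : ∀ f ∈ D, (fun x => ∑ y, @ite _ (G.Adj x y) (Classical.propDecidable _) (f y) 0) ∈ D

end Pool.Agent.QAOA.CY
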