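import Mathlib

set_option autoImplicit false

namespace Pool.Agent.QAOA.CY

open Finset

/-- representatives of the functions `ZMod L → Fin (n + 1)` up to rotation (`L` prime) -/
theorem exists_reps (L : ℕ) [hL : Fact L.Prime] (n : ℕ) :
    ∃ R : Finset (ZMod L → Fin (n + 1)), L * R.card ≤ (n + 1) ^ L + L * (n + 1) ∧
      ∀ α : ZMod L → Fin (n + 1), ∃ r ∈ R, ∃ j : ZMod L, ∀ p, α p = r (p + j) := by
  classical
  haveI : NeZero L := ⟨hL.out.ne_zero⟩
  -- the orbit relation
  let S : Setoid (ZMod L → Fin (n + 1)) :=
    { r := fun α β => ∃ j : ZMod L, ∀ p, α p = β (p + j)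
      iseqv := by
        refine ⟨fun α => ⟨0, fun p => by rw [add_zero]⟩, ?_, ?_⟩
        · rintro α β ⟨j, hj⟩
          refine ⟨-j, fun p => ?_⟩
          rw [hj, neg_add_cancel_right]
        · rintro α β γ ⟨j, hj⟩ ⟨i, hi⟩
          exact ⟨j + i, fun p => by rw [hj, hi, add_assoc]⟩ }
  let ρ : (ZMod L → Fin (n + 1)) → (ZMod L → Fin (n + 1)) := fun α => (Quotient.mk S α).out
  have hρ : ∀ α, ∃ j : ZMod L, ∀ p, α p = ρ α (p + j) := by
    intro α
    have h : S.r (ρ α) α := Quotient.exact (Quotient.out_eq (Quotient.mk S α))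
    obtain ⟨j, hj⟩ := S.iseqv.symm h
    exact ⟨j, hj⟩
  have hρ2 : ∀ α β, S.r α β → ρ α = ρ β := by
    intro α β h
    show (Quotient.mk S α).out = (Quotient.mk S β).out
    rw [Quotient.sound (s := S) h]
  refine ⟨univ.image ρ, ?_, fun α => ⟨ρ α, mem_image_of_mem _ (mem_univ _), hρ α⟩⟩
  -- the constant representatives, and the others
  set R := univ.image ρ with hR
  set C : Finset (ZMod L → Fin (n + 1)) := univ.image (fun (i : Fin (n + 1)) (_ : ZMod L) => i) with hC
  have hCc : C.card ≤ n + 1 := by
    rw [hC]
    exact card_image_le.trans (by simp)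
  have h1 : R.card ≤ C.card + (R \ C).card := by
    have h := card_le_card (show R ⊆ C ∪ (R \ C) from fun x hx => by
      by_cases hx2 : x ∈ C
      · exact mem_union_left _ hx2
      · exact mem_union_right _ (mem_sdiff.2 ⟨hx, hx2⟩))
    exact h.trans (card_union_le _ _)
  -- each nonconstant representative has `L` rotations
  have h2 : L * (R \ C).card ≤ (n + 1) ^ L := by
    have h3 : ((R \ C) ×ˢ (univ : Finset (ZMod L))).card ≤ (univ : Finset (ZMod L → Fin (n + 1))).card := by
      refine card_le_card_of_injOn (fun x => fun p => x.1 (p + x.2)) (fun x _ => mem_coe.2 (mem_univ _)) ?_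
      rintro ⟨r, j⟩ hr ⟨s, i⟩ hs h
      simp only [coe_product, Set.mem_prod, mem_coe, mem_sdiff, mem_univ, and_true, coe_univ, Set.mem_univ] at hr hs
      have hrs : ∀ p, r (p + j) = s (p + i) := fun p => congrFun h p
      obtain ⟨⟨α, -, hα⟩, hrC⟩ := And.intro (mem_image.1 hr.1) hr.2
      obtain ⟨⟨β, -, hβ⟩, -⟩ := And.intro (mem_image.1 hs.1) hs.2
      have hrr : ρ r = r := by
        obtain ⟨j', hj'⟩ := hρ α
        rw [hα] at hj'
        rw [← hρ2 α r ⟨j', hj'⟩, hα]
      have hss : ρ s = s := by
        obtain ⟨j', hj'⟩ := hρ β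
        rw [hβ] at hj'
        rw [← hρ2 β s ⟨j', hj'⟩, hβ]
      have hrs2 : r = s := by
        rw [← hrr, ← hss]
        refine hρ2 r s ⟨i - j, fun p => ?_⟩
        have := hrs (p - j)
        rw [sub_add_cancel] at this
        rw [this]
        congr 1
        ring
      subst hrs2
      have hji : j = i := by
        by_contra hne
        apply hrC
        rw [hC, mem_image]
        have hd : i - j ≠ 0 := sub_ne_zero.2 (Ne.symm hne)
        have hper : ∀ p, r p = r (p + (i - j)) := by
          intro p
          have := hrs (p - j)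
          rw [sub_add_cancel] at this
          rw [this]
          congr 1
          ring
        have hper2 : ∀ (t : ℕ) p, r p = r (p + t • (i - j)) := by
          intro t
          induction t with
          | zero => intro p; simp
          | succ t ih =>
            intro p
            rw [ih p, hper (p + t • (i - j)), succ_nsmul, add_assoc]
        refine ⟨r 0, mem_univ _, ?_⟩
        funext p
        have hu : ((p / (i - j)).val : ZMod L) * (i - j) = p := by
          rw [ZMod.natCast_zmod_val]
          field_simp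
        have := hper2 (p / (i - j)).val 0
        rw [nsmul_eq_mul, hu, zero_add] at this
        exact this
      rw [hji]
    rw [card_product, card_univ, ZMod.card, card_univ, Fintype.card_fun, Fintype.card_fin, ZMod.card] at h3
    rw [mul_comm]
    exact h3
  calc L * R.card ≤ L * (C.card + (R \ C).card) := Nat.mul_le_mul_left _ h1
    _ = L * (R \ C).card + L * C.card := by ring
    _ ≤ (n + 1) ^ L + L * (n + 1) := Nat.add_le_add h2 (Nat.mul_le_mul_left _ hCc)

end Pool.Agent.QAOA.CY
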