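import Mathlib

/-!
# The numerical inequality for the connected counterexample
-/

set_option autoImplicit false

namespace Pool.Agent.QAOA.CY

theorem num_sym (a L R m : ℕ) (ha : 2 ≤ a) (hL : 256 * a ^ 2 ≤ L) (hm : 4 ≤ m) (hR : L * R ≤ a ^ L + L * a) :
    1 + R * 4 ^ m < 4 ^ (m - 3) * a ^ (L - 2) := by
  have ha2 : 4 ≤ a ^ 2 := by nlinarith
  have hL0 : 1024 ≤ L := by nlinarith
  set P := a ^ (L - 2) with hP
  have hPL : a ^ L = a ^ 2 * P := by
    rw [hP, ← pow_add]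
    congr 1
    omega
  have hPa : 256 * a ≤ P := by
    have h1 : P = a ^ (L - 3) * a := by
      rw [hP, ← pow_succ]
      congr 1
      omega
    have h2 : 2 ^ 8 ≤ a ^ (L - 3) := by
      calc 2 ^ 8 ≤ a ^ 8 := Nat.pow_le_pow_left ha 8
        _ ≤ a ^ (L - 3) := Nat.pow_le_pow_right (by omega) (by omega)
    rw [h1]
    exact Nat.mul_le_mul_right _ (by norm_num at h2; exact h2)
  have h128 : 128 * R ≤ P := by
    have h1 : L * (256 * R) ≤ L * (2 * P) := by
      calc L * (256 * R) = 256 * (L * R) := by ring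
        _ ≤ 256 * (a ^ L + L * a) := Nat.mul_le_mul_left _ hR
        _ = (256 * a ^ 2) * P + L * (256 * a) := by rw [hPL]; ring
        _ ≤ L * P + L * P := Nat.add_le_add (Nat.mul_le_mul_right _ hL) (Nat.mul_le_mul_left _ hPa)
        _ = L * (2 * P) := by ring
    have h2 := Nat.le_of_mul_le_mul_left h1 (by omega)
    omega
  have h64 : 64 * R + 1 ≤ P := by omega
  have hQ : 4 ^ m = 64 * 4 ^ (m - 3) := by
    conv_lhs => rw [show m = (m - 3) + 3 by omega, pow_add]
    ring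
  have hQ2 : 4 ≤ 4 ^ (m - 3) := by
    calc 4 = 4 ^ 1 := by norm_num
      _ ≤ 4 ^ (m - 3) := Nat.pow_le_pow_right (by norm_num) (by omega)
  rw [hQ]
  calc 1 + R * (64 * 4 ^ (m - 3)) < 4 ^ (m - 3) * (64 * R + 1) := by nlinarith
    _ ≤ 4 ^ (m - 3) * P := Nat.mul_le_mul_left _ h64

/-- there are primes `L` as large as we want -/
theorem exists_prime_large (a N : ℕ) : ∃ L : ℕ, L.Prime ∧ 256 * a ^ 2 ≤ L ∧ N ≤ L := by
  obtain ⟨L, h1, h2⟩ := Nat.exists_infinite_primes (256 * a ^ 2 + N)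
  exact ⟨L, h2, by omega, by omega⟩

end Pool.Agent.QAOA.CY
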