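import Pool.Agent.Lib_MP_debdb1_cx.Ten
import Pool.Agent.Lib_MP_debdb1_cy.Cnt

/-!
# Piece SYM: graph automorphisms act on the Lie algebra; the rotation of the gadgets
-/

set_option autoImplicit false

namespace Pool.Agent.QAOA.CY

open Matrix Pool.Agent.QAOA Pool.Agent.QAOA.CX

section conj

section basic

variable {W : Type*}

/-- conjugation by a permutation of the qubits -/
def cj (τ : W ≃ W) (M : Op W) : Op W := M.submatrix (fun x => x ∘ τ) (fun x => x ∘ τ)

/-- the permutation of the basis -/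
def cjE (τ : W ≃ W) : (W → Bool) ≃ (W → Bool) where
  toFun x := x ∘ τ
  invFun x := x ∘ τ.symm
  left_inv x := by funext w; simp
  right_inv x := by funext w; simp

theorem cj_apply (τ : W ≃ W) (M : Op W) (x y : W → Bool) : cj τ M x y = M (x ∘ τ) (y ∘ τ) := rfl

theorem cj_add (τ : W ≃ W) (M N : Op W) : cj τ (M + N) = cj τ M + cj τ N := rfl

theorem cj_sub (τ : W ≃ W) (M N : Op W) : cj τ (M - N) = cj τ M - cj τ N := rfl

theorem cj_zero (τ : W ≃ W) : cj τ (0 : Op W) = 0 := rfl

theorem cj_smul (τ : W ≃ W) (c : ℂ) (M : Op W) : cj τ (c • M) = c • cj τ M := rfl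

end basic

variable {W : Type*} [Fintype W] [DecidableEq W]

theorem cj_mul (τ : W ≃ W) (M N : Op W) : cj τ (M * N) = cj τ M * cj τ N := by
  have h := Matrix.submatrix_mul_equiv M N (fun x : W → Bool => x ∘ τ) (cjE τ) (fun x : W → Bool => x ∘ τ)
  exact h.symm

/-- `cj` as a linear map -/
def cjL (τ : W ≃ W) : Op W →ₗ[ℂ] Op W where
  toFun := cj τ
  map_add' := cj_add τ
  map_smul' := cj_smul τ

theorem cj_sum {κ : Type*} (s : Finset κ) (τ : W ≃ W) (M : κ → Op W) : cj τ (∑ i ∈ s, M i) = ∑ i ∈ s, cj τ (M i) :=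
  map_sum (cjL τ) M s

theorem cj_injective (τ : W ≃ W) : Function.Injective (cj τ) := by
  intro M N h
  ext x y
  have := congrFun (congrFun h (x ∘ τ.symm)) (y ∘ τ.symm)
  rw [cj_apply, cj_apply] at this
  have e : ∀ z : W → Bool, (z ∘ τ.symm) ∘ τ = z := fun z => by funext w; simp
  rwa [e, e] at this

theorem cj_px (τ : W ≃ W) (u : W) : cj τ (px u) = px (τ u) := by
  ext x y
  rw [cj_apply]
  simp only [px, Matrix.of_apply]
  refine if_congr ?_ rfl rfl
  constructor
  · intro h
    funext w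
    have h1 := congrFun h (τ.symm w)
    simp only [Function.comp_apply, Equiv.apply_symm_apply] at h1
    rw [h1]
    by_cases hw : w = τ u
    · subst hw
      simp
    · rw [Function.update_of_ne hw, Function.update_of_ne (fun e => hw (by rw [← e]; simp))]
      simp
  · rintro rfl
    funext w
    by_cases hw : w = u
    · subst hw
      simp
    · rw [Function.update_of_ne hw]
      simp [Function.update_of_ne (fun e => hw (τ.injective e) : ¬ τ w = τ u)]

theorem cj_pz (τ : W ≃ W) (u : W) : cj τ (pz u) = pz (τ u) := by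
  ext x y
  rw [cj_apply]
  unfold pz
  by_cases h : x = y
  · subst h
    rw [Matrix.diagonal_apply_eq, Matrix.diagonal_apply_eq]
    rfl
  · rw [Matrix.diagonal_apply_ne _ h, Matrix.diagonal_apply_ne]
    intro h1
    exact h ((cjE τ).injective h1)

theorem cj_HM (τ : W ≃ W) : cj τ (HM W) = HM W := by
  unfold HM
  rw [cj_sum]
  simp only [cj_px]
  exact Equiv.sum_comp τ (fun w => (px w : Op W))

open Classical in
theorem cj_HP (G : SimpleGraph W) (τ : W ≃ W) (hτ : ∀ x y, G.Adj (τ x) (τ y) ↔ G.Adj x y) : cj τ (HP G) = HP G := by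
  unfold HP
  rw [cj_smul, cj_sum]
  congr 1
  have e : ∀ j, cj τ (∑ k, if G.Adj j k then (pz j * pz k : Op W) else 0) =
      ∑ k, if G.Adj (τ j) k then (pz (τ j) * pz k : Op W) else 0 := by
    intro j
    rw [cj_sum, ← Equiv.sum_comp τ (fun k => if G.Adj (τ j) k then (pz (τ j) * pz k : Op W) else 0)]
    refine Finset.sum_congr rfl fun k _ => ?_
    by_cases h : G.Adj j k
    · rw [if_pos h, if_pos ((hτ j k).2 h), cj_mul, cj_pz, cj_pz]
    · rw [if_neg h, if_neg (fun h' => h ((hτ j k).1 h')), cj_zero]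
  rw [Finset.sum_congr rfl fun j _ => e j]
  exact Equiv.sum_comp τ (fun j => ∑ k, if G.Adj j k then (pz j * pz k : Op W) else 0)

/-- automorphisms fix the elements of the Lie algebra -/
theorem cj_genC (G : SimpleGraph W) (τ : W ≃ W) (hτ : ∀ x y, G.Adj (τ x) (τ y) ↔ G.Adj x y) (M : Op W)
    (hM : M ∈ genC (HP G) (HM W)) : cj τ M = M := by
  let S : Submodule ℂ (Op W) := LinearMap.eqLocus (cjL τ) LinearMap.id
  have h : genC (HP G) (HM W) ≤ S := by
    refine sInf_le ⟨cj_HP G τ hτ, cj_HM τ, ?_⟩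
    intro M hM N hN
    have h1 : cj τ M = M := hM
    have h2 : cj τ N = N := hN
    change cj τ (M * N - N * M) = M * N - N * M
    rw [cj_sub, cj_mul, cj_mul, h1, h2]
  exact h hM

end conj

section tensor

variable {U W I : Type*} [Fintype U] [DecidableEq U] [Fintype W] [DecidableEq W] [Fintype I] [DecidableEq I]

theorem cj_TP (f : U ↪ W) (g : I → Fin 8 ↪ W) (τ : W ≃ W) (τc : U ≃ U) (ρ : I ≃ I) (hf : ∀ u, τ (f u) = f (τc u))
    (hg : ∀ i s, τ (g i s) = g (ρ i) s) (O : Op U) (a : I → Op (Fin 8)) :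
    cj τ (TP f g O a) = TP f g (cj τc O) (fun i => a (ρ.symm i)) := by
  classical
  ext x y
  rw [cj_apply]
  simp only [TP, Matrix.of_apply]
  have hcond : (∀ w, w ∉ Set.range f → (∀ i, w ∉ Set.range (g i)) → (x ∘ τ) w = (y ∘ τ) w) ↔
      (∀ w, w ∉ Set.range f → (∀ i, w ∉ Set.range (g i)) → x w = y w) := by
    constructor
    · intro h w h1 h2
      have h3 := h (τ.symm w) ?_ ?_
      · simpa using h3
      · rintro ⟨u, hu⟩
        exact h1 ⟨τc u, by rw [← hf, hu, Equiv.apply_symm_apply]⟩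
      · rintro i ⟨s, hs⟩
        exact h2 (ρ i) ⟨s, by rw [← hg, hs, Equiv.apply_symm_apply]⟩
    · intro h w h1 h2
      refine h (τ w) ?_ ?_
      · rintro ⟨u, hu⟩
        refine h1 ⟨τc.symm u, ?_⟩
        apply τ.injective
        rw [hf, Equiv.apply_symm_apply, hu]
      · rintro i ⟨s, hs⟩
        refine h2 (ρ.symm i) ⟨s, ?_⟩
        apply τ.injective
        rw [hg, Equiv.apply_symm_apply, hs]
  refine if_congr hcond ?_ rfl
  congr 1
  · rw [cj_apply]
    congr 1
    · funext u
      simp [hf]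
    · funext u
      simp [hf]
  · rw [← Equiv.prod_comp ρ (fun j => a (ρ.symm j) (fun s => x (g j s)) (fun s => y (g j s)))]
    refine Finset.prod_congr rfl fun i _ => ?_
    rw [Equiv.symm_apply_apply]
    congr 1
    · funext s
      simp [hg]
    · funext s
      simp [hg]

end tensor

section bound

variable {U W : Type*} [Fintype U] [DecidableEq U] [Fintype W] [DecidableEq W]

theorem TP_add' {I : Type*} [Fintype I] (f : U ↪ W) (g : I → Fin 8 ↪ W) (O O' : Op U) (a : I → Op (Fin 8)) :
    TP f g (O + O') a = TP f g O a + TP f g O' a := by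
  classical
  ext x y
  simp only [TP, Matrix.of_apply, Matrix.add_apply]
  split_ifs
  · rw [add_mul]
  · rw [add_zero]

theorem TP_smul' {I : Type*} [Fintype I] (f : U ↪ W) (g : I → Fin 8 ↪ W) (c : ℂ) (O : Op U) (a : I → Op (Fin 8)) :
    TP f g (c • O) a = c • TP f g O a := by
  classical
  ext x y
  simp only [TP, Matrix.of_apply, Matrix.smul_apply, smul_eq_mul]
  split_ifs
  · rw [mul_assoc]
  · rw [mul_zero]

/-- `O ↦ TP f g O a` -/
noncomputable def TPl {I : Type*} [Fintype I] (f : U ↪ W) (g : I → Fin 8 ↪ W) (a : I → Op (Fin 8)) : Op U →ₗ[ℂ] Op W where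
  toFun O := TP f g O a
  map_add' O O' := TP_add' f g O O' a
  map_smul' c O := TP_smul' f g c O a

/-- the map `(c, O) ↦ c H + ∑ O_α ⊗ e_α` -/
noncomputable def Psi {n L : ℕ} [NeZero L] (f : U ↪ W) (g : ZMod L → Fin 8 ↪ W) (e : Fin n → Op (Fin 8)) (H : Op W) :
    ℂ × ((ZMod L → Fin n) → Op U) →ₗ[ℂ] Op W :=
  (LinearMap.toSpanSingleton ℂ (Op W) H) ∘ₗ (LinearMap.fst ℂ ℂ _) +
    ∑ α : ZMod L → Fin n, (TPl f g (fun i => e (α i))) ∘ₗ (LinearMap.proj (R := ℂ) (φ := fun _ => Op U) α) ∘ₗ
      (LinearMap.snd ℂ ℂ _)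

theorem Psi_apply {n L : ℕ} [NeZero L] (f : U ↪ W) (g : ZMod L → Fin 8 ↪ W) (e : Fin n → Op (Fin 8)) (H : Op W) (c : ℂ)
    (O : (ZMod L → Fin n) → Op U) : Psi f g e H (c, O) = c • H + ∑ α, TP f g (O α) (fun i => e (α i)) := by
  unfold Psi
  rw [LinearMap.add_apply, LinearMap.sum_apply]
  rfl

/-- the rotation of the words -/
def rotE (n L : ℕ) : (ZMod L → Fin n) ≃ (ZMod L → Fin n) where
  toFun α := fun i => α (i + 1)
  invFun α := fun i => α (i - 1)
  left_inv α := by funext i; simp
  right_inv α := by funext i; simp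

/-- the equivariant families -/
def Eqv {U : Type*} (n L : ℕ) (τc : U ≃ U) : Submodule ℂ (ℂ × ((ZMod L → Fin n) → Op U)) where
  carrier := {p | ∀ β, p.2 β = cj τc (p.2 (rotE n L β))}
  add_mem' {p q} hp hq β := by
    change p.2 β + q.2 β = cj τc (p.2 (rotE n L β) + q.2 (rotE n L β))
    rw [cj_add, ← hp β, ← hq β]
  zero_mem' β := rfl
  smul_mem' c p hp β := by
    change c • p.2 β = cj τc (c • p.2 (rotE n L β))
    rw [cj_smul, ← hp β]

open Classical in
/-- the operators `c H + ∑ O_α ⊗ e_α` which are fixed by a rotation of the gadgets span a small space -/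
theorem sym_bound {n L : ℕ} [NeZero L] (f : U ↪ W) (g : ZMod L → Fin 8 ↪ W) (hd : Dj f g) (τ : W ≃ W) (τc : U ≃ U)
    (hf : ∀ u, τ (f u) = f (τc u)) (hg : ∀ i s, τ (g i s) = g (i + 1) s)
    (e : Fin n → Op (Fin 8)) (he : LinearIndependent ℂ e) (H : Op W) (hH : cj τ H = H) (K : Submodule ℂ (Op W))
    (hK : ∀ M ∈ K, ∃ (c : ℂ) (O : (ZMod L → Fin n) → Op U), M = c • H + ∑ α, TP f g (O α) (fun i => e (α i)))
    (hτ : ∀ M ∈ K, cj τ M = M) (R : Finset (ZMod L → Fin n))
    (hR : ∀ α : ZMod L → Fin n, ∃ β ∈ R, ∃ k : ZMod L, ∀ i, α i = β (i + k)) :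
    Module.finrank ℂ K ≤ 1 + 4 ^ Fintype.card U * R.card := by
  -- the families of the elements of `K` are equivariant
  have h1 : K ≤ (Eqv n L τc).map (Psi f g e H) := by
    intro M hM
    obtain ⟨c, O, hO⟩ := hK M hM
    refine ⟨(c, O), ?_, by rw [Psi_apply, hO]⟩
    have h2 := hτ M hM
    rw [hO, cj_add, cj_smul, hH, cj_sum] at h2
    have h3 : ∀ α, cj τ (TP f g (O α) (fun i => e (α i))) = TP f g (cj τc (O α)) (fun i => e (α (i - 1))) := fun α => by
      simp only [sub_eq_add_neg]
      exact cj_TP f g τ τc (Equiv.addRight 1) hf hg (O α) (fun i => e (α i))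
    rw [Finset.sum_congr rfl fun α _ => h3 α] at h2
    have h4 : ∑ α, TP f g (cj τc (O α)) (fun i => e (α (i - 1))) =
        ∑ β, TP f g (cj τc (O (rotE n L β))) (fun i => e (β i)) := by
      rw [← Equiv.sum_comp (rotE n L)]
      refine Finset.sum_congr rfl fun β _ => ?_
      congr 1
      funext i
      congr 1
      change β (i - 1 + 1) = β i
      rw [sub_add_cancel]
    rw [h4] at h2
    have h5 := add_left_cancel h2
    have h6 : ∑ β, TP f g (O β - cj τc (O (rotE n L β))) (fun i => e (β i)) = 0 := by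
      have h7 : ∀ β, TP f g (O β - cj τc (O (rotE n L β))) (fun i => e (β i)) =
          TP f g (O β) (fun i => e (β i)) - TP f g (cj τc (O (rotE n L β))) (fun i => e (β i)) := fun β =>
        map_sub (TPl f g (fun i => e (β i))) (O β) (cj τc (O (rotE n L β)))
      rw [Finset.sum_congr rfl fun β _ => h7 β, Finset.sum_sub_distrib, h5, sub_self]
    intro β
    exact sub_eq_zero.mp (TP_indep f g hd e he _ h6 β)
  -- equivariant families are determined by the representatives
  let T : Eqv (U := U) n L τc →ₗ[ℂ] ℂ × (R → Op U) :=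
    ((LinearMap.fst ℂ ℂ _).prod (LinearMap.pi fun β : R =>
      (LinearMap.proj (R := ℂ) (φ := fun _ => Op U) β.1) ∘ₗ (LinearMap.snd ℂ ℂ _))) ∘ₗ (Eqv (U := U) n L τc).subtype
  have hT : Function.Injective T := by
    rw [injective_iff_map_eq_zero]
    rintro ⟨⟨c, O⟩, hO⟩ h
    have hc : c = 0 := congrArg Prod.fst h
    have hz : ∀ β ∈ R, O β = 0 := fun β hβ => congrFun (congrArg Prod.snd h) ⟨β, hβ⟩
    have hO' : ∀ β, O β = cj τc (O (rotE n L β)) := hO
    have hit : ∀ (k : ℕ) (β : ZMod L → Fin n), O β = 0 → O (fun i => β (i + k)) = 0 := by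
      intro k
      induction k with
      | zero =>
        intro β h0
        simpa using h0
      | succ k ih =>
        intro β h0
        have h7 : O (rotE n L (fun i => β (i + k))) = 0 := by
          apply cj_injective τc
          rw [← hO', ih β h0, cj_zero]
        have e1 : rotE n L (fun i => β (i + k)) = fun i => β (i + (k + 1 : ℕ)) := by
          funext i
          change β (i + 1 + k) = _
          congr 1
          push_cast
          ring
        rwa [e1] at h7
    have hall : O = 0 := by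
      funext α
      obtain ⟨β, hβ, k, hk⟩ := hR α
      have h8 := hit k.val β (hz β hβ)
      have e2 : α = fun i => β (i + (k.val : ZMod L)) := by
        funext i
        rw [hk i, ZMod.natCast_zmod_val]
      rw [e2]
      exact h8
    apply Subtype.ext
    change (c, O) = 0
    rw [hc, hall]
    rfl
  calc Module.finrank ℂ K ≤ Module.finrank ℂ ((Eqv n L τc).map (Psi f g e H)) := Submodule.finrank_mono h1
    _ ≤ Module.finrank ℂ (Eqv (U := U) n L τc) := Submodule.finrank_map_le _ _
    _ ≤ Module.finrank ℂ (ℂ × (R → Op U)) := LinearMap.finrank_le_finrank_of_injective hT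
    _ = 1 + 4 ^ Fintype.card U * R.card := by
      rw [Module.finrank_prod, Module.finrank_self, Module.finrank_pi_fintype]
      congr 1
      rw [Finset.sum_const, Finset.card_univ, Fintype.card_coe, Module.finrank_matrix, Fintype.card_fun,
        Fintype.card_bool, Module.finrank_self, smul_eq_mul, mul_one, ← mul_pow, mul_comm]
      norm_num

end bound

end Pool.Agent.QAOA.CY
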