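import Pool.Agent.Lib_MP_debdb1_cx.Ub2
import Pool.Agent.Lib_MP_debdb1_cx.Hid

/-!
# Piece UB2 + SYM: hiding one gadget in a rotation invariant situation
-/

set_option autoImplicit false

namespace Pool.Agent.QAOA.CY

section reps

open Finset

/-- representatives of the functions `ZMod L → Fin (n + 1)` up to rotation (`L` prime) -/
theorem ubsym_reps (L : ℕ) [hL : Fact L.Prime] (n : ℕ) :
    ∃ R : Finset (ZMod L → Fin (n + 1)), L * R.card ≤ (n + 1) ^ L + L * (n + 1) ∧
      ∀ α : ZMod L → Fin (n + 1), ∃ r ∈ R, ∃ j : ZMod L, ∀ p, α p = r (p + j) := by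
  classical
  haveI : NeZero L := ⟨hL.out.ne_zero⟩
  -- the orbit relation
  let S : Setoid (ZMod L → Fin (n + 1)) :=
    { r := fun α β => ∃ j : ZMod L, ∀ p, α p = β (p + j)
      iseqv := by
        refine ⟨fun α => ⟨0, fun p => by rw [add_zero]⟩, ?_, ?_⟩
        · rintro α β ⟨j, hj⟩
          refine ⟨-j, fun p => ?_⟩
          rw [hj, neg_add_cancel_right]
        · rintro α β γ ⟨j, hj⟩ ⟨i, hi⟩
          exact ⟨j + i, fun p => by rw [hj, hi, add_assoc]⟩ }
  let ρ : (ZMod L → Fin (n + 1)) → (ZMod L → Fin (n + 1)) := fun α => (Quotient.mk S α).out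
  have hρ : ∀ α, ∃ j : ZMod L, ∀ p, α p = ρ α (p + j) := by
    intro α
    have h : S.r (ρ α) α := Quotient.exact (Quotient.out_eq (Quotient.mk S α))
    obtain ⟨j, hj⟩ := S.iseqv.symm h
    exact ⟨j, hj⟩
  have hρ2 : ∀ α β, S.r α β → ρ α = ρ β := by
    intro α β h
    show (Quotient.mk S α).out = (Quotient.mk S β).out
    rw [Quotient.sound (s := S) h]
  refine ⟨univ.image ρ, ?_, fun α => ⟨ρ α, mem_image_of_mem _ (mem_univ _), hρ α⟩⟩
  -- the constant representatives, and the others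
  set R := univ.image ρ with hR
  set C : Finset (ZMod L → Fin (n + 1)) := univ.image (fun (i : Fin (n + 1)) (_ : ZMod L) => i) with hC
  have hCc : C.card ≤ n + 1 := by
    rw [hC]
    exact card_image_le.trans (by simp)
  have h1 : R.card ≤ C.card + (R \ C).card := by
    have h := card_le_card (show R ⊆ C ∪ (R \ C) from fun x hx => by
      by_cases hx2 : x ∈ C
      · exact mem_union_left _ hx2
      · exact mem_union_right _ (mem_sdiff.2 ⟨hx, hx2⟩))
    exact h.trans (card_union_le _ _)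
  -- each nonconstant representative has `L` rotations
  have h2 : L * (R \ C).card ≤ (n + 1) ^ L := by
    have h3 : ((R \ C) ×ˢ (univ : Finset (ZMod L))).card ≤ (univ : Finset (ZMod L → Fin (n + 1))).card := by
      refine card_le_card_of_injOn (fun x => fun p => x.1 (p + x.2)) (fun x _ => mem_coe.2 (mem_univ _)) ?_
      rintro ⟨r, j⟩ hr ⟨s, i⟩ hs h
      simp only [coe_product, Set.mem_prod, mem_coe, mem_sdiff, mem_univ, and_true, coe_univ, Set.mem_univ] at hr hs
      have hrs : ∀ p, r (p + j) = s (p + i) := fun p => congrFun h p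
      obtain ⟨⟨α, -, hα⟩, hrC⟩ := And.intro (mem_image.1 hr.1) hr.2
      obtain ⟨⟨β, -, hβ⟩, -⟩ := And.intro (mem_image.1 hs.1) hs.2
      have hrr : ρ r = r := by
        obtain ⟨j', hj'⟩ := hρ α
        rw [hα] at hj'
        rw [← hρ2 α r ⟨j', hj'⟩, hα]
      have hss : ρ s = s := by
        obtain ⟨j', hj'⟩ := hρ β
        rw [hβ] at hj'
        rw [← hρ2 β s ⟨j', hj'⟩, hβ]
      have hrs2 : r = s := by
        rw [← hrr, ← hss]
        refine hρ2 r s ⟨i - j, fun p => ?_⟩
        have := hrs (p - j)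
        rw [sub_add_cancel] at this
        rw [this]
        congr 1
        ring
      subst hrs2
      have hji : j = i := by
        by_contra hne
        apply hrC
        rw [hC, mem_image]
        have hd : i - j ≠ 0 := sub_ne_zero.2 (Ne.symm hne)
        have hper : ∀ p, r p = r (p + (i - j)) := by
          intro p
          have := hrs (p - j)
          rw [sub_add_cancel] at this
          rw [this]
          congr 1
          ring
        have hper2 : ∀ (t : ℕ) p, r p = r (p + t • (i - j)) := by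
          intro t
          induction t with
          | zero => intro p; simp
          | succ t ih =>
            intro p
            rw [ih p, hper (p + t • (i - j)), succ_nsmul, add_assoc]
        refine ⟨r 0, mem_univ _, ?_⟩
        funext p
        have hu : ((p / (i - j)).val : ZMod L) * (i - j) = p := by
          rw [ZMod.natCast_zmod_val]
          field_simp
        have := hper2 (p / (i - j)).val 0
        rw [nsmul_eq_mul, hu, zero_add] at this
        exact this
      rw [hji]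
    rw [card_product, card_univ, ZMod.card, card_univ, Fintype.card_fun, Fintype.card_fin, ZMod.card] at h3
    rw [mul_comm]
    exact h3
  calc L * R.card ≤ L * (C.card + (R \ C).card) := Nat.mul_le_mul_left _ h1
    _ = L * (R \ C).card + L * C.card := by ring
    _ ≤ (n + 1) ^ L + L * (n + 1) := Nat.add_le_add h2 (Nat.mul_le_mul_left _ hCc)

end reps

open Matrix Pool.Agent.QAOA Pool.Agent.QAOA.CX

section
variable {m : ℕ} [NeZero m] {A : Finset (ZMod m)}

/-- a permutation of the core which preserves the gadget positions, on all qubits -/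
def rotV (ρ : Equiv.Perm (ZMod m)) (hρ : ∀ p, p ∈ A → ρ p ∈ A) : VA m A → VA m A
  | Sum.inl u => Sum.inl (ρ u)
  | Sum.inr (p, s) => Sum.inr (⟨ρ p.1, hρ p.1 p.2⟩, s)

/-- the rotated operator -/
def rotM (ρ : Equiv.Perm (ZMod m)) (hρ : ∀ p, p ∈ A → ρ p ∈ A) (M : Op (VA m A)) : Op (VA m A) :=
  Matrix.of fun x y => M (fun v => x (rotV ρ hρ v)) (fun v => y (rotV ρ hρ v))

/-- the rotated operator on the core -/
def rotC (ρ : Equiv.Perm (ZMod m)) (O : Op (ZMod m)) : Op (ZMod m) :=
  Matrix.of fun x y => O (fun v => x (ρ v)) (fun v => y (ρ v))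

theorem rotC_symm (ρ : Equiv.Perm (ZMod m)) (O : Op (ZMod m)) : rotC ρ.symm (rotC ρ O) = O := by
  ext x y
  simp [rotC]

/-- `rotC` as a linear map -/
def rotCL (ρ : Equiv.Perm (ZMod m)) : Op (ZMod m) →ₗ[ℂ] Op (ZMod m) where
  toFun := rotC ρ
  map_add' _ _ := rfl
  map_smul' _ _ := rfl

variable (ρ : Equiv.Perm (ZMod m)) (hρ : ∀ p, p ∈ A → ρ p ∈ A)

/-- the permutation of the gadgets -/
def rotP (hρ' : ∀ p, p ∈ A → ρ.symm p ∈ A) : Equiv.Perm {p : ZMod m // p ∈ A} where
  toFun p := ⟨ρ p.1, hρ p.1 p.2⟩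
  invFun p := ⟨ρ.symm p.1, hρ' p.1 p.2⟩
  left_inv p := Subtype.ext (ρ.symm_apply_apply p.1)
  right_inv p := Subtype.ext (ρ.apply_symm_apply p.1)

theorem rotM_TP (hρ' : ∀ p, p ∈ A → ρ.symm p ∈ A) (O : Op (ZMod m)) (a : {p : ZMod m // p ∈ A} → Op (Fin 8)) :
    rotM ρ hρ (TP (cE m A) (pE m A) O (fun p => a (rotP ρ hρ hρ' p))) = TP (cE m A) (pE m A) (rotC ρ O) a := by
  ext x y
  rw [rotM, Matrix.of_apply, TP_cp, TP_cp]
  congr 1
  exact Fintype.prod_equiv (rotP ρ hρ hρ') _ _ fun p => rfl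

theorem rotM_add (M N : Op (VA m A)) : rotM ρ hρ (M + N) = rotM ρ hρ M + rotM ρ hρ N := rfl

theorem rotM_smul (c : ℂ) (M : Op (VA m A)) : rotM ρ hρ (c • M) = c • rotM ρ hρ M := rfl

theorem rotM_sum {κ : Type*} (s : Finset κ) (M : κ → Op (VA m A)) :
    rotM ρ hρ (∑ i ∈ s, M i) = ∑ i ∈ s, rotM ρ hρ (M i) := by
  ext x y
  rw [rotM, Matrix.of_apply, Matrix.sum_apply, Matrix.sum_apply]
  rfl

/-- the coefficients of an invariant operator -/
theorem coef_rot (hρ' : ∀ p, p ∈ A → ρ.symm p ∈ A) {n : ℕ} (e : Fin (n + 1) → Op (Fin 8)) (he : LinearIndependent ℂ e)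
    (H : Op (VA m A)) (hH : rotM ρ hρ H = H) (c : ℂ) (O : ({p : ZMod m // p ∈ A} → Fin (n + 1)) → Op (ZMod m))
    (h : rotM ρ hρ (c • H + ∑ α, TP (cE m A) (pE m A) (O α) (fun i => e (α i))) =
      c • H + ∑ α, TP (cE m A) (pE m A) (O α) (fun i => e (α i))) (β : {p : ZMod m // p ∈ A} → Fin (n + 1)) :
    O (fun p => β (rotP ρ hρ hρ' p)) = rotC ρ.symm (O β) := by
  rw [rotM_add, rotM_smul, hH, rotM_sum, add_right_inj] at h
  have h1 : ∑ α : {p : ZMod m // p ∈ A} → Fin (n + 1), rotM ρ hρ (TP (cE m A) (pE m A) (O α) (fun i => e (α i))) =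
      ∑ β : {p : ZMod m // p ∈ A} → Fin (n + 1),
        TP (cE m A) (pE m A) (rotC ρ (O fun p => β (rotP ρ hρ hρ' p))) (fun i => e (β i)) := by
    symm
    refine Fintype.sum_equiv (Equiv.arrowCongr (rotP ρ hρ hρ').symm (Equiv.refl _)) _ _ fun β => ?_
    rw [← rotM_TP ρ hρ hρ']
    rfl
  rw [h1, ← sub_eq_zero, ← Finset.sum_sub_distrib] at h
  have h2 := TP_indep (cE m A) (pE m A) (dj_cp m A) e he
    (fun β => rotC ρ (O fun p => β (rotP ρ hρ hρ' p)) - O β) (by
      rw [← h]
      refine Finset.sum_congr rfl fun β _ => ?_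
      rw [sub_eq_add_neg, TP_cp_add, ← neg_one_smul ℂ (O β), TP_cp_smul, neg_one_smul, ← sub_eq_add_neg]) β
  have h3 : rotC ρ (O fun p => β (rotP ρ hρ hρ' p)) = O β := sub_eq_zero.1 h2
  rw [← h3, rotC_symm]

end

section
variable {m : ℕ} [NeZero m] {A : Finset (ZMod m)} (p : {p : ZMod m // p ∈ A})

/-- the restriction to the other gadgets -/
def resA {X : Type*} (a : {p : ZMod m // p ∈ A} → X) : {q : ZMod m // q ∈ A.erase p.1} → X :=
  fun q => a ⟨q.1, Finset.mem_of_mem_erase q.2⟩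

theorem resG_surj (y : VA m (A.erase p.1) → Bool) : ∃ w : VA m A → Bool, resG p w = y := by
  classical
  refine ⟨fun v => match v with
    | Sum.inl u => y (Sum.inl u)
    | Sum.inr (q, t) => if h : q.1 ∈ A.erase p.1 then y (Sum.inr (⟨q.1, h⟩, t)) else false, ?_⟩
  funext v
  rcases v with u | ⟨q, t⟩
  · rfl
  · simp only [resG]
    rw [dif_pos q.2]

theorem hid_mul (M : Op (VA m (A.erase p.1))) (x : VA m A → Bool) (y : VA m (A.erase p.1) → Bool) :
    (hid m A p * M) x y = psi (fun s => x (Sum.inr (p, s))) * M (resG p x) y := by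
  rw [Matrix.mul_apply, Finset.sum_eq_single (resG p x)]
  · rw [hid, Matrix.of_apply, if_pos]
    exact ⟨fun _ => rfl, fun _ _ => rfl⟩
  · intro z _ hz
    rw [hid, Matrix.of_apply, if_neg, zero_mul]
    rintro ⟨h1, h2⟩
    apply hz
    funext v
    rcases v with u | ⟨q, t⟩
    · exact (h1 u).symm
    · exact (h2 q t).symm
  · intro h
    exact absurd (Finset.mem_univ _) h

theorem prod_resA (f : {p : ZMod m // p ∈ A} → ℂ) :
    ∏ i ∈ Finset.univ.erase p, f i = ∏ q : {q : ZMod m // q ∈ A.erase p.1}, f ⟨q.1, Finset.mem_of_mem_erase q.2⟩ := by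
  symm
  refine Finset.prod_bij (fun q _ => ⟨q.1, Finset.mem_of_mem_erase q.2⟩) ?_ ?_ ?_ ?_
  · intro q _
    rw [Finset.mem_erase]
    exact ⟨fun h => Finset.ne_of_mem_erase q.2 (congrArg Subtype.val h), Finset.mem_univ _⟩
  · intro a _ b _ h
    exact Subtype.ext (congrArg (fun z : {p : ZMod m // p ∈ A} => z.1) h)
  · intro b hb
    rw [Finset.mem_erase] at hb
    refine ⟨⟨b.1, Finset.mem_erase.mpr ⟨fun h => hb.1 (Subtype.ext h), b.2⟩⟩, Finset.mem_univ _, rfl⟩
  · intro a _
    rfl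

/-- hiding a gadget where the operator is `1` -/
theorem TP_hid_one (O : Op (ZMod m)) (a : {p : ZMod m // p ∈ A} → Op (Fin 8)) (ha : a p = 1) :
    TP (cE m A) (pE m A) O a * hid m A p =
      hid m A p * TP (cE m (A.erase p.1)) (pE m (A.erase p.1)) O (resA p a) := by
  ext x y
  obtain ⟨w, rfl⟩ := resG_surj p y
  rw [TP_hid, ha, Matrix.one_mulVec, hid_mul, TP_cp, prod_resA]
  change _ = psi _ * (O (fun u => x (Sum.inl u)) (fun u => w (Sum.inl u)) * _)
  rw [mul_comm (psi _)]
  rfl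

/-- hiding a gadget where the operator kills the hidden state -/
theorem TP_hid_zero (O : Op (ZMod m)) (a : {p : ZMod m // p ∈ A} → Op (Fin 8)) (ha : a p *ᵥ psi = 0) :
    TP (cE m A) (pE m A) O a * hid m A p = 0 := by
  ext x y
  obtain ⟨w, rfl⟩ := resG_surj p y
  rw [TP_hid, ha]
  simp

end

section
variable {m : ℕ} [NeZero m] {A : Finset (ZMod m)}

open Classical in
/-- the elements which can be obtained after hiding the gadget `p0` -/
noncomputable def Phi (p0 : {p : ZMod m // p ∈ A}) (ρ : Equiv.Perm (ZMod m)) (H' : Op (VA m (A.erase p0.1)))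
    (n : ℕ) (e : Fin (n + 1) → Op (Fin 8)) {X : Type*} [Fintype X]
    (r : ({p : ZMod m // p ∈ A} → Fin (n + 1)) → X) (j : ({p : ZMod m // p ∈ A} → Fin (n + 1)) → ℕ) :
    (ℂ × (X → Op (ZMod m))) →ₗ[ℂ] Op (VA m (A.erase p0.1)) where
  toFun Q := Q.1 • H' + ∑ α : {p : ZMod m // p ∈ A} → Fin (n + 1), if α p0 = 0 then
    TP (cE m (A.erase p0.1)) (pE m (A.erase p0.1)) (((rotCL ρ.symm) ^ (j α)) (Q.2 (r α))) (resA p0 fun i => e (α i)) else 0
  map_add' Q Q' := by
    rw [Prod.fst_add, Prod.snd_add, add_smul]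
    have : ∀ α : {p : ZMod m // p ∈ A} → Fin (n + 1), (if α p0 = 0 then
        TP (cE m (A.erase p0.1)) (pE m (A.erase p0.1)) (((rotCL ρ.symm) ^ (j α)) ((Q.2 + Q'.2) (r α)))
          (resA p0 fun i => e (α i)) else 0) =
        (if α p0 = 0 then TP (cE m (A.erase p0.1)) (pE m (A.erase p0.1)) (((rotCL ρ.symm) ^ (j α)) (Q.2 (r α)))
          (resA p0 fun i => e (α i)) else 0) +
        (if α p0 = 0 then TP (cE m (A.erase p0.1)) (pE m (A.erase p0.1)) (((rotCL ρ.symm) ^ (j α)) (Q'.2 (r α)))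
          (resA p0 fun i => e (α i)) else 0) := by
      intro α
      split_ifs
      · rw [Pi.add_apply, map_add, TP_cp_add]
      · rw [add_zero]
    rw [Finset.sum_congr rfl fun α _ => this α, Finset.sum_add_distrib]
    abel
  map_smul' c Q := by
    rw [RingHom.id_apply, Prod.smul_fst, Prod.smul_snd, smul_add, smul_eq_mul, mul_smul, Finset.smul_sum]
    congr 1
    refine Finset.sum_congr rfl fun α _ => ?_
    split_ifs
    · rw [Pi.smul_apply, map_smul, TP_cp_smul]
    · rw [smul_zero]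

/-- **the upper bound after hiding one gadget** -/
theorem ub_sym (L : ℕ) [Fact L.Prime] (pos : ZMod L ≃ {p : ZMod m // p ∈ A}) (ρ : Equiv.Perm (ZMod m))
    (hpos : ∀ i, ρ (pos i).1 = (pos (i + 1)).1) {n : ℕ} (e : Fin (n + 1) → Op (Fin 8)) (he : LinearIndependent ℂ e)
    (h0 : e 0 = 1) (hs : ∀ i : Fin n, e i.succ *ᵥ psi = 0) (hρ : ∀ p, p ∈ A → ρ p ∈ A) (p0 : {p : ZMod m // p ∈ A})
    (H : Op (VA m A)) (H' : Op (VA m (A.erase p0.1))) (hH : rotM ρ hρ H = H) (hHH : H * hid m A p0 = hid m A p0 * H')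
    (K : Submodule ℂ (Op (VA m (A.erase p0.1))))
    (hK : ∀ z' ∈ K, ∃ z : Op (VA m A), rotM ρ hρ z = z ∧ z * hid m A p0 = hid m A p0 * z' ∧
      ∃ (c : ℂ) (O : ({p : ZMod m // p ∈ A} → Fin (n + 1)) → Op (ZMod m)),
        z = c • H + ∑ α, TP (cE m A) (pE m A) (O α) (fun i => e (α i))) :
    ∃ R : ℕ, L * R ≤ (n + 1) ^ L + L * (n + 1) ∧ Module.finrank ℂ K ≤ 1 + R * 4 ^ m := by
  classical
  haveI : NeZero L := ⟨(Fact.out : L.Prime).ne_zero⟩
  have hρ' : ∀ p, p ∈ A → ρ.symm p ∈ A := by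
    intro p hp
    obtain ⟨i, hi⟩ := pos.surjective ⟨p, hp⟩
    have h1 := hpos (i - 1)
    rw [sub_add_cancel, hi] at h1
    have h2 : ρ.symm p = (pos (i - 1)).1 := by
      rw [Equiv.symm_apply_eq]
      exact h1.symm
    rw [h2]
    exact (pos (i - 1)).2
  obtain ⟨R, hR, hrep⟩ := ubsym_reps L n
  refine ⟨R.card, hR, ?_⟩
  -- representatives for the multiindices
  have hrep2 : ∀ α : {p : ZMod m // p ∈ A} → Fin (n + 1), ∃ (r : {r // r ∈ R}) (j : ℕ),
      ∀ i : ZMod L, α (pos i) = r.1 (i + (j : ZMod L)) := by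
    intro α
    obtain ⟨r, hr, j, hj⟩ := hrep (fun i => α (pos i))
    exact ⟨⟨r, hr⟩, j.val, fun i => by rw [ZMod.natCast_zmod_val]; exact hj i⟩
  choose r j hrj using hrep2
  -- the multiindex of a representative
  let β : {r // r ∈ R} → ({p : ZMod m // p ∈ A} → Fin (n + 1)) := fun r p => r.1 (pos.symm p)
  have hle : K ≤ LinearMap.range (Phi p0 ρ H' n e r j) := by
    intro z' hz'
    obtain ⟨z, hz1, hz2, c, O, rfl⟩ := hK z' hz'
    have hcoef := coef_rot ρ hρ hρ' e he H hH c O hz1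
    have hiter : ∀ (t : ℕ) (γ : ZMod L → Fin (n + 1)),
        O (fun p => γ (pos.symm p + (t : ZMod L))) = ((rotCL ρ.symm) ^ t) (O fun p => γ (pos.symm p)) := by
      intro t
      induction t with
      | zero =>
        intro γ
        simp
      | succ t ih =>
        intro γ
        have h1 := ih (fun i => γ (i + 1))
        have h2 : (fun p => γ (pos.symm p + ((t + 1 : ℕ) : ZMod L))) =
            fun p => (fun i => γ (i + 1)) (pos.symm p + (t : ZMod L)) := by
          funext p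
          rw [Nat.cast_add, Nat.cast_one, ← add_assoc]
        rw [h2, h1, pow_succ, Module.End.mul_apply]
        congr 1
        have h3 := hcoef (fun p => γ (pos.symm p))
        have h4 : (fun p => γ (pos.symm ((rotP ρ hρ hρ') p))) = fun p => γ (pos.symm p + 1) := by
          funext p
          congr 1
          rw [Equiv.symm_apply_eq]
          apply Subtype.ext
          rw [← hpos, Equiv.apply_symm_apply]
          rfl
        rw [h4] at h3
        exact h3
    have hO : ∀ α, O α = ((rotCL ρ.symm) ^ (j α)) (O (β (r α))) := by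
      intro α
      rw [← hiter (j α) (r α).1]
      congr 1
      funext p
      rw [← hrj α (pos.symm p), Equiv.apply_symm_apply]
    refine ⟨(c, fun x => O (β x)), ?_⟩
    rw [← sub_eq_zero]
    apply hid_cancel m A p0
    rw [Matrix.mul_sub, ← hz2, sub_eq_zero]
    change hid m A p0 * (c • H' + ∑ α : {p : ZMod m // p ∈ A} → Fin (n + 1), _) = _
    rw [Matrix.mul_add, Matrix.mul_smul, ← hHH, Matrix.add_mul, Matrix.smul_mul, Matrix.mul_sum, Matrix.sum_mul]
    congr 1
    refine Finset.sum_congr rfl fun α _ => ?_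
    by_cases hα : α p0 = 0
    · rw [if_pos hα, TP_hid_one p0 _ _ (by rw [hα, h0]), ← hO α]
    · rw [if_neg hα, Matrix.mul_zero]
      obtain ⟨i, hi⟩ := Fin.exists_succ_eq.2 hα
      rw [TP_hid_zero p0 _ _ (by rw [← hi]; exact hs i)]
  calc Module.finrank ℂ K ≤ Module.finrank ℂ (LinearMap.range (Phi p0 ρ H' n e r j)) := Submodule.finrank_mono hle
    _ ≤ Module.finrank ℂ (ℂ × ({r // r ∈ R} → Op (ZMod m))) := LinearMap.finrank_range_le _
    _ = 1 + R.card * 4 ^ m := by
      rw [Module.finrank_prod, Module.finrank_self, Module.finrank_pi_fintype]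
      simp only [finrank_op, Finset.sum_const, Finset.card_univ, Fintype.card_coe, smul_eq_mul]

end

end Pool.Agent.QAOA.CY
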